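import Pool.Agent.W337.WL.Fix

set_option autoImplicit false

/-!
# Project WL: final assembly
-/

open MeasureTheory Set
open scoped ENNReal NNReal

namespace Pool.Agent.W337.WL

open Pool.Agent.W172.WL

theorem W_periodic (b : ℕ) (α : ℝ) {g : ℝ → ℝ} (hg : LipPer g) :
    Function.Periodic (W b α g) 1 := by
  intro x
  unfold W
  refine tsum_congr fun k => ?_
  have h1 := hg.1.nat_mul (b ^ k) ((b : ℝ) ^ k * x)
  rw [mul_one, Nat.cast_pow] at h1
  rw [mul_add, mul_one, h1]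

theorem range_eq {f : ℝ → ℝ} (hf : Function.Periodic f 1) : range f = f '' Icc (0:ℝ) 1 := by
  apply Subset.antisymm
  · rintro _ ⟨x, rfl⟩
    refine ⟨Int.fract x, ⟨Int.fract_nonneg x, (Int.fract_lt_one x).le⟩, ?_⟩
    have h1 := hf.sub_int_mul_eq ⌊x⌋ (x := x)
    rw [mul_one] at h1
    exact h1
  · rintro _ ⟨x, -, rfl⟩
    exact ⟨x, rfl⟩

theorem dimH_eq (f : ℝ → ℝ) (y : ℝ) :
    dimH {x : ℝ | x ∈ Ico (0:ℝ) 1 ∧ f x = y} = dimH {x : ℝ | x ∈ Icc (0:ℝ) 1 ∧ f x = y} := by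
  apply le_antisymm
  · exact dimH_mono fun x hx => ⟨Ico_subset_Icc_self hx.1, hx.2⟩
  · have h1 : {x : ℝ | x ∈ Icc (0:ℝ) 1 ∧ f x = y} ⊆
        {x : ℝ | x ∈ Ico (0:ℝ) 1 ∧ f x = y} ∪ {1} := by
      rintro x ⟨⟨h2, h3⟩, h4⟩
      rcases eq_or_lt_of_le h3 with h | h
      · exact Or.inr h
      · exact Or.inl ⟨⟨h2, h⟩, h4⟩
    refine (dimH_mono h1).trans ?_
    rw [dimH_union, dimH_singleton]
    simp

theorem good {b : ℕ} {α : ℝ} (hb : 2 ≤ b) (h0 : 0 < α) (h1 : α < 1) (hHOL : S_HOL) (hDET : S_DET)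
    (hUNIF : S_UNIF) (hCOMP : S_COMP) {g : ℝ → ℝ} (hg : LipPer g) (hG : G1 b α g) :
    ∀ᵐ y : ℝ, y ∈ range (W b α g) →
      dimH {x : ℝ | x ∈ Ico (0:ℝ) 1 ∧ W b α g x = y} = ENNReal.ofReal (1 - α) := by
  have h2 := hUNIF b α hb h0 h1 g hg (hCOMP b α hb h0 h1 g hg hG)
  have h3 := hHOL b α hb h0 h1 g hg
  filter_upwards [hDET b α hb h0 h1 _ h3 h2] with y hy hy2
  rw [range_eq (W_periodic b α hg)] at hy2
  rw [dimH_eq]
  exact hy hy2

theorem main (hHOL : S_HOL) (hDET : S_DET) (hUNIF : S_UNIF) (hCOMP : S_COMP) (hPHI : S_PHI2)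
    (hPROB : S_PROB) (hBOREL : S_BOREL2) : S_MAIN2 := by
  intro b α hb hα0 hα1
  obtain ⟨N, hN⟩ := hPROB b α hb hα0 hα1
  obtain ⟨Ψ, hΨ, hΨeq⟩ := hPHI b α N hb hα0 hα1
  let _ : MeasurableSpace LS := borel LS
  have : BorelSpace LS := ⟨rfl⟩
  have hΨm : Measurable Ψ := hΨ.measurable
  have hB : MeasurableSet {g : LS | ¬ G1 b α g.fn} := (hBOREL b α hb hα0 hα1).compl
  have hK : (Measure.map Ψ Pr) (range Ψ) = 1 := by
    rw [Measure.map_apply hΨm (isCompact_range hΨ).isClosed.measurableSet]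
    rw [preimage_range, measure_univ]
  refine ⟨Measure.map Ψ Pr, {g : LS | ¬ G1 b α g.fn}, ?_, hB,
    ⟨range Ψ, isCompact_range hΨ, ?_, ?_⟩, ?_⟩
  · intro g hg hG
    exact hg (good hb hα0 hα1 hHOL hDET hUNIF hCOMP g.lipPer hG)
  · rw [hK]; exact one_pos
  · rw [hK]; exact ENNReal.one_lt_top
  · intro x
    have h1 : (fun z => x + z) '' {g : LS | ¬ G1 b α g.fn} =
        (fun z => -x + z) ⁻¹' {g : LS | ¬ G1 b α g.fn} := Set.image_add_left
    have h2 : MeasurableSet ((fun z : LS => -x + z) ⁻¹' {g : LS | ¬ G1 b α g.fn}) :=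
      (continuous_const.add continuous_id).measurable hB
    rw [h1, Measure.map_apply hΨm h2]
    have h3 := hN (-x).fn (-x).lipPer
    rw [ae_iff] at h3
    refine measure_mono_null ?_ h3
    intro ω hω h4
    apply hω
    have h5 : (-x + Ψ ω).fn = fun t => (-x).fn t + Phi b α N ω t := by
      funext t
      rw [LS.add_fn, hΨeq]
    rw [h5]
    exact h4

end Pool.Agent.W337.WL
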