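import Pool.Agent.W172.WL.Stm

set_option autoImplicit false

/-!
# Project WL: the space `Lip(S¹)` with the topology of the norm

The subgroup `LipS1` of `ℝ → ℝ` carries the topology of pointwise convergence as a subtype; here `LS` is
the same group with the topology of the norm.
-/

open MeasureTheory Set
open scoped ENNReal NNReal

namespace Pool.Agent.W337.WL

open Pool.Agent.W172.WL

/-- The Banach space `Lip(S¹)` with the norm `sup |g| + sup_{x ≠ y} |g x - g y| / |x - y|`. -/
def LS : Type := LipS1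

noncomputable instance instLS : NormedAddCommGroup LS := lipGroupNorm.toNormedAddCommGroup

/-- the `1`-periodic function on `ℝ` given by an element of `Lip(S¹)` -/
def LS.fn (g : LS) : ℝ → ℝ := Subtype.val (p := fun x => x ∈ LipS1) g

theorem LS.lipPer (g : LS) : LipPer g.fn := Subtype.property (p := fun x => x ∈ LipS1) g

theorem LS.norm_def (g : LS) : ‖g‖ = supN g.fn + lipN g.fn := rfl

theorem LS.add_fn (g h : LS) (x : ℝ) : (g + h).fn x = g.fn x + h.fn x := rfl

theorem LS.neg_fn (g : LS) (x : ℝ) : (-g).fn x = -g.fn x := rfl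

theorem LS.sub_fn (g h : LS) (x : ℝ) : (g - h).fn x = g.fn x - h.fn x := rfl

theorem LS.ext {g h : LS} (H : ∀ x, g.fn x = h.fn x) : g = h :=
  Subtype.ext (p := fun x => x ∈ LipS1) (funext H)

/-- an element of `LS` from a Lipschitz function -/
def LS.mk (g : ℝ → ℝ) (h : LipPer g) : LS := (⟨g, h⟩ : LipS1)

theorem LS.mk_fn (g : ℝ → ℝ) (h : LipPer g) : (LS.mk g h).fn = g := rfl

/-- PHI: the random function is a continuous map into `Lip(S¹)` (norm topology). -/
def S_PHI2 : Prop := ∀ (b : ℕ) (α : ℝ) (N : ℕ), 2 ≤ b → 0 < α → α < 1 →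
  ∃ Ψ : Om → LS, Continuous Ψ ∧ ∀ (ω : Om) (x : ℝ), (Ψ ω).fn x = Phi b α N ω x

/-- BOREL: the good functions form a Borel set (norm topology). -/
def S_BOREL2 : Prop := ∀ (b : ℕ) (α : ℝ), 2 ≤ b → 0 < α → α < 1 →
  MeasurableSet[borel LS] {g : LS | G1 b α g.fn}

/-- MAIN (norm topology) -/
def S_MAIN2 : Prop := ∀ (b : ℕ) (α : ℝ), 2 ≤ b → 0 < α → α < 1 →
  IsShy {g : LS | ¬ ∀ᵐ y : ℝ, y ∈ range (W b α g.fn) →
    dimH {x : ℝ | x ∈ Ico (0:ℝ) 1 ∧ W b α g.fn x = y} = ENNReal.ofReal (1 - α)}

/-- the identity map -/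
def toLip (g : LS) : LipS1 := g

/-- The norm topology is finer than the topology of pointwise convergence. -/
theorem continuous_toLip : Continuous toLip := by
  refine Topology.IsInducing.subtypeVal.continuous_iff.2 ?_
  refine continuous_pi fun x => ?_
  show Continuous fun g : LS => g.fn x
  refine (LipschitzWith.of_dist_le_mul (K := 1) fun g h => ?_).continuous
  rw [dist_eq_norm, dist_eq_norm, NNReal.coe_one, one_mul, ← LS.sub_fn, LS.norm_def, Real.norm_eq_abs]
  have h1 := le_supN (g - h).lipPer x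
  have h2 := lipN_nonneg (g - h).fn
  linarith

theorem borel2 (h : S_BOREL) : S_BOREL2 := by
  intro b α hb h0 h1
  have h2 := h b α hb h0 h1
  have h3 : Measurable[borel LS, borel LipS1] toLip := by
    let _ : MeasurableSpace LS := borel LS
    let _ : MeasurableSpace LipS1 := borel LipS1
    have : BorelSpace LS := ⟨rfl⟩
    have : BorelSpace LipS1 := ⟨rfl⟩
    exact continuous_toLip.measurable
  exact h3 h2

end Pool.Agent.W337.WL
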